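import Pool.Agent.T3h47.RM.E

/-!
# Radial mean bodies of negative order: the Fourier transform is not the radial function of a
star-shaped set of finite volume

Let `n ≥ 3`, `p ∈ (-1, 0)` and let `K = [0, 1]ⁿ`. The question (Q2) is whether, for every convex body
`K`, the distribution `Γ(p/2) (ρ_{R_pK}^p)^` is given by a function whose restriction to the unit
sphere is the radial function of a star-shaped set of finite volume, or even of a star body. The
function `ρ_{R_pK}^p` is homogeneous of degree `-p`, so the function would be homogeneous of degree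
`p - n`. We prove that the cube is a counterexample, for all `n ≥ 3` and all `p ∈ (-1, 0)`:

* no locally integrable function `h` on `ℝⁿ \ {0}` which gives the distribution on the test functions
  supported away from the origin has a finite integral of `|h|ⁿ` over the shell `1 ≤ |ξ| ≤ 2`;
* in particular (polar coordinates) no function of the form `|ξ|^{p-n} ρ_L(ξ/|ξ|)` with a star-shaped
  set `L` of finite volume gives the distribution on these test functions.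

Proof. With `q = -p` the mean of the chord lengths to the power `-q` is
`ρ_{R_pK}(x)^p = ∫_0^∞ q s^{-1-q} (1 - g(s x)) ds` where `g(z) = ∏ max(0, 1 - |z_i|)` is the
covariogram. So away from the origin the transform of `ρ_{R_pK}^p` is
`- ∫_0^∞ q s^{-1-q} ∏ 2 s (1 - cos(ξ_i / s)) / ξ_i² ds`. In the boxes `ξ_1 ∈ [6/5, 9/5]`, `|ξ_i| ≤ m`
for `i ≥ 2` the integral of this function is at least `c m^{1-q}` (take `m ≤ s ≤ 2 m`), while by
Hölder's inequality the integral of a function in `Lⁿ` of the shell is at most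
`C m^{(n-1)²/n} ≤ C m^{4/3}`.
-/

set_option autoImplicit false
open MeasureTheory Set Filter Topology
open scoped ENNReal RealInnerProductSpace SchwartzMap

namespace Pool.Agent.Results.MP_fd6526_gt.CubeInfiniteVolume

open Pool.Agent.Results.MP_fd6526_gt.MeanBodyEmbeds (Body radial meanBody)

variable {n : ℕ}

/-- the unit cube -/
def cube (n : ℕ) : Set (EuclideanSpace ℝ (Fin n)) := {x | ∀ i, x i ∈ Icc (0 : ℝ) 1}

/-- Away from the origin the distribution `Γ(p/2) (ρ_M^p)^` is given by the function `h`: `h` is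
locally integrable on `ℝⁿ \ {0}` and `Γ(p/2) ∫ ρ_M(x)^p φ^(x) dx = ∫ h(ξ) φ(ξ) dξ` for all smooth
functions `φ` with compact support in `ℝⁿ \ {0}`, where `φ^(x) = ∫ φ(ξ) exp(-i⟨x, ξ⟩) dξ`. -/
def IsTransform (p : ℝ) (M : Set (EuclideanSpace ℝ (Fin n))) (h : EuclideanSpace ℝ (Fin n) → ℂ) :
    Prop :=
  LocallyIntegrableOn h {0}ᶜ ∧
    ∀ φ : 𝓢(EuclideanSpace ℝ (Fin n), ℂ), HasCompactSupport φ →
      (0 : EuclideanSpace ℝ (Fin n)) ∉ tsupport φ →
      (Real.Gamma (p / 2) : ℂ) * ∫ x, ((radial M x ^ p : ℝ) : ℂ) *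
        (∫ ξ, φ ξ * Complex.exp (-(((⟪x, ξ⟫ : ℝ) : ℂ) * Complex.I))) = ∫ ξ, h ξ * φ ξ

/-- star-shaped about the origin -/
def StarShaped (L : Set (EuclideanSpace ℝ (Fin n))) : Prop :=
  ∀ x ∈ L, ∀ t ∈ Icc (0 : ℝ) 1, t • x ∈ L

/-- **Q2 of MP_fd6526 has a negative answer for all `n ≥ 3` and `p ∈ (-1, 0)`.** -/
theorem result (n : ℕ) (hn : 3 ≤ n) (p : ℝ) (hp : -1 < p) (hp0 : p < 0) :
    Body (cube n) ∧
    (∀ h : EuclideanSpace ℝ (Fin n) → ℂ, IsTransform p (meanBody (cube n) p) h →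
      ∫⁻ ξ in {ξ | 1 ≤ ‖ξ‖ ∧ ‖ξ‖ ≤ 2}, ‖h ξ‖ₑ ^ n = ∞) ∧
    ¬ ∃ L : Set (EuclideanSpace ℝ (Fin n)), StarShaped L ∧ volume L ≠ ∞ ∧
      ∃ h : EuclideanSpace ℝ (Fin n) → ℂ, IsTransform p (meanBody (cube n) p) h ∧
        ∀ᵐ ξ : EuclideanSpace ℝ (Fin n),
          h ξ = ((‖ξ‖ ^ (p - n) * radial L (‖ξ‖⁻¹ • ξ) : ℝ) : ℂ) := by
  have ha : ∀ h : EuclideanSpace ℝ (Fin n) → ℂ, IsTransform p (meanBody (cube n) p) h →
      ∫⁻ ξ in {ξ | 1 ≤ ‖ξ‖ ∧ ‖ξ‖ ≤ 2}, ‖h ξ‖ₑ ^ n = ∞ := fun h hh =>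
    Pool.Agent.T3h47.RM.main_a hn hp hp0 h hh.1 hh.2
  refine ⟨Pool.Agent.T3h47.RM.body_cube n, ha, ?_⟩
  rintro ⟨L, hL, hvol, h, hh, hhL⟩
  have h1 := ha h hh
  have h2 : ∫⁻ ξ in {ξ : EuclideanSpace ℝ (Fin n) | 1 ≤ ‖ξ‖ ∧ ‖ξ‖ ≤ 2}, ‖h ξ‖ₑ ^ n ≤
      ∫⁻ ξ in {ξ : EuclideanSpace ℝ (Fin n) | 1 ≤ ‖ξ‖ ∧ ‖ξ‖ ≤ 2},
        ENNReal.ofReal (radial L ξ ^ n) := by
    have hSh : MeasurableSet {ξ : EuclideanSpace ℝ (Fin n) | 1 ≤ ‖ξ‖ ∧ ‖ξ‖ ≤ 2} :=
      (measurableSet_le measurable_const measurable_norm).inter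
        (measurableSet_le measurable_norm measurable_const)
    refine lintegral_mono_ae ?_
    rw [ae_restrict_iff' hSh]
    filter_upwards [hhL] with ξ hξ hξ2
    have hn1 : (1 : ℝ) ≤ ‖ξ‖ := hξ2.1
    have hne : ξ ≠ 0 := by
      intro h0
      rw [h0, norm_zero] at hn1
      linarith
    have hn3 : (3 : ℝ) ≤ n := by exact_mod_cast hn
    have hr := Pool.Agent.T3h47.RM.radial_nonneg L ξ
    have e1 : ‖h ξ‖ ≤ radial L ξ := by
      have e2 : ‖ξ‖ ^ (p - n) * (‖ξ‖ * radial L ξ) = ‖ξ‖ ^ (p - n + 1) * radial L ξ := by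
        rw [Real.rpow_add_one (by linarith)]
        ring
      have e3 : ‖ξ‖ ^ (p - n + 1) ≤ 1 :=
        Real.rpow_le_one_of_one_le_of_nonpos hn1 (by linarith)
      have e4 : 0 ≤ ‖ξ‖ ^ (p - n + 1) := Real.rpow_nonneg (norm_nonneg _) _
      rw [hξ, Complex.norm_real, Pool.Agent.T3h47.RM.radial_smul L hne, e2, Real.norm_eq_abs,
        abs_of_nonneg (mul_nonneg e4 hr)]
      exact mul_le_of_le_one_left hr e3
    rw [← ofReal_norm, ← ENNReal.ofReal_pow (norm_nonneg _)]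
    apply ENNReal.ofReal_le_ofReal
    gcongr
  have h3 := Pool.Agent.T3h47.RM.radial_shell (n := n) (by omega) hL
  have h4 : (n : ℝ≥0∞) * volume L ≠ ∞ := ENNReal.mul_ne_top (ENNReal.natCast_ne_top n) hvol
  rw [h1] at h2
  exact h4 (top_le_iff.1 (h2.trans h3))

end Pool.Agent.Results.MP_fd6526_gt.CubeInfiniteVolume
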